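import Pool.Agent.Helper42.DB.Goals2

set_option autoImplicit false

/-!
# Packet ENERGY for MP_48f005_an
-/

namespace Pool.Agent.Helper42.DB.PkENERGY

open Set Filter Topology

lemma ee_add_ee (u φ : ℝ) : ee (u + φ) + ee (u - φ) = (2 * Real.cos φ) • ee u := by
  apply Complex.ext
  · simp only [Complex.add_re, ee_re, Complex.smul_re, smul_eq_mul, Real.cos_add, Real.cos_sub]
    ring
  · simp only [Complex.add_im, ee_im, Complex.smul_im, smul_eq_mul, Real.sin_add, Real.sin_sub]
    ring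

theorem fle (S : Sys) : G_FLE S := by
  intro x y x' y' h h'
  have hl := h.length.2
  have hl' := h'.length.2
  have he := h.2.2.1
  have he' := h'.2.2.1
  have e1 : ee y.bk = -ee x.th := by rw [he, neg_neg]
  have e1' : ee y'.bk = -ee x'.th := by rw [he', neg_neg]
  have hd : y'.pos - y.pos = (x'.pos - x.pos) +
      (len x' y' • ee x'.th - len x y • ee x.th) := by
    unfold len
    conv_lhs => rw [hl, hl']
    abel
  unfold Em Ep
  rw [e1, e1', hd]
  have hc : Real.cos (x.th - x'.th) = Real.cos (x'.th - x.th) := by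
    rw [← Real.cos_neg, neg_sub]
  simp only [dt_add_right, dt_sub_right, dt_sub_left, dt_smul_right, dt_neg_left, dt_ee_ee,
    sub_self, Real.cos_zero, hc]
  ring

theorem bne (S : Sys) (hA : G_ARC S) : G_BNE S := by
  intro x x' hi hx hx'
  obtain ⟨i, u, φ⟩ := x
  obtain ⟨i', u', φ'⟩ := x'
  simp only at hi
  subst hi
  have hc := hx.cos_pos
  have hc' := hx'.cos_pos
  have hu : u ∈ Icc (S.a i) (S.b i) := Ioo_subset_Icc_self hx.1
  have hu' : u' ∈ Icc (S.a i) (S.b i) := Ioo_subset_Icc_self hx'.1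
  have hK : S.g i u ∈ S.K i := subset_convexHull ℝ _ ⟨u, hu, rfl⟩
  have hK' : S.g i u' ∈ S.K i := subset_convexHull ℝ _ ⟨u', hu', rfl⟩
  have h1 := (hA i).2.2.2 u hu _ hK'
  have h2 := (hA i).2.2.2 u' hu' _ hK
  simp only [Ep, Em, St.pos, St.th, St.bk] at *
  have h3 : dt (ee (u' + φ') - ee (u + φ)) (S.g i u' - S.g i u) -
      dt (ee (u - φ) - ee (u' - φ')) (S.g i u' - S.g i u) =
      2 * Real.cos φ' * dt (ee u') (S.g i u' - S.g i u) +
      2 * Real.cos φ * dt (ee u) (S.g i u - S.g i u') := by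
    have e1 : dt (ee (u' + φ') - ee (u + φ)) (S.g i u' - S.g i u) -
      dt (ee (u - φ) - ee (u' - φ')) (S.g i u' - S.g i u) =
      dt (ee (u' + φ') + ee (u' - φ')) (S.g i u' - S.g i u) -
      dt (ee (u + φ) + ee (u - φ)) (S.g i u' - S.g i u) := by
      simp only [dt_add_left, dt_sub_left]
      ring
    rw [e1, ee_add_ee, ee_add_ee, dt_smul_left, dt_smul_left, ← neg_sub (S.g i u') (S.g i u),
      dt_neg_right]
    ring
  have h4 : ‖S.g i u - S.g i u'‖ = ‖S.g i u' - S.g i u‖ := norm_sub_rev _ _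
  rw [h4] at h1
  nlinarith [mul_le_mul_of_nonneg_left h1 hc.le, mul_le_mul_of_nonneg_left h2 hc'.le]

theorem thm (S : Sys) : G_ARC S → G_FLE S ∧ G_BNE S := fun h => ⟨fle S, bne S h⟩

end Pool.Agent.Helper42.DB.PkENERGY
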