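import Pool.Agent.Helper42.DB.Goals2

set_option autoImplicit false

/-!
# Packet FULLPATH for MP_48f005_an
-/

namespace Pool.Agent.Helper42.DB.PkFULLPATH

open Set Filter Topology

lemma near_mono {S : Sys} {δ δ' : ℝ} {x y : St S} (h : δ ≤ δ') (hn : Near δ x y) :
    Near δ' x y := by
  unfold Near at *
  rcases hn with h1 | h1 | h1 | h1 | h1 | h1 | ⟨l, hl, hl', p, hp, v, hv, hd⟩
  · exact Or.inl (by linarith)
  · exact Or.inr (Or.inl (by linarith))
  · exact Or.inr (Or.inr (Or.inl (by linarith)))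
  · exact Or.inr (Or.inr (Or.inr (Or.inl (by linarith))))
  · exact Or.inr (Or.inr (Or.inr (Or.inr (Or.inl (by linarith)))))
  · exact Or.inr (Or.inr (Or.inr (Or.inr (Or.inr (Or.inl (by linarith))))))
  · exact Or.inr (Or.inr (Or.inr (Or.inr (Or.inr (Or.inr
      ⟨l, hl, hl', p, hp, v, hv, by linarith⟩)))))

lemma path_mem (a x s : ℝ) (hs : s ∈ Icc (0 : ℝ) 1) : a + s * (x - a) ∈ uIcc a x := by
  rcases le_total a x with h | h
  · rw [uIcc_of_le h]
    constructor
    · nlinarith [hs.1, mul_nonneg hs.1 (sub_nonneg.2 h)]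
    · nlinarith [mul_nonneg (sub_nonneg.2 hs.2) (sub_nonneg.2 h)]
  · rw [uIcc_of_ge h]
    constructor
    · nlinarith [mul_nonneg (sub_nonneg.2 hs.2) (sub_nonneg.2 h)]
    · nlinarith [hs.1, mul_nonneg hs.1 (sub_nonneg.2 h)]

theorem thm (S : Sys) : G_OPEN S → G_LIM S → G_FULLPATH S := by
  intro hO hL n w z x y hn hz
  by_contra hcon
  push Not at hcon
  obtain ⟨h1, h2⟩ := hcon
  choose! d hd hd2 using h2
  -- a uniform constant
  obtain ⟨δ, hδ, hδd⟩ : ∃ δ : ℝ, 0 < δ ∧ ∀ k < n, δ ≤ d k := by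
    have hne : (Finset.range n).Nonempty := ⟨0, Finset.mem_range.2 hn⟩
    obtain ⟨k0, hk0, hk0'⟩ := Finset.exists_min_image (Finset.range n) d hne
    refine ⟨d k0, hd k0 (Finset.mem_range.1 hk0), fun k hk => hk0' k (Finset.mem_range.2 hk)⟩
  have hX : Continuous (fun s : ℝ => (z 0).u + s * (x - (z 0).u)) := by fun_prop
  have hY : Continuous (fun s : ℝ => (z n).u + s * (y - (z n).u)) := by fun_prop
  set A : Set ℝ := {s | ∃ m : ℕ → St S, Cyl n w m ∧ (m 0).u = (z 0).u + s * (x - (z 0).u) ∧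
    (m n).u = (z n).u + s * (y - (z n).u)} with hA
  have hclosed : IsClosed (A ∩ Icc (0 : ℝ) 1) := by
    apply IsSeqClosed.isClosed
    intro sq s hsq hs
    have hm : ∀ q, ∃ m : ℕ → St S, Cyl n w m ∧
        (m 0).u = (z 0).u + sq q * (x - (z 0).u) ∧
        (m n).u = (z n).u + sq q * (y - (z n).u) := fun q => (hsq q).1
    choose m hm1 hm2 hm3 using hm
    have hnear : ∀ q, ∀ k < n, ¬Near δ (m q k) (m q (k + 1)) := by
      intro q k hk hN
      have hN' := near_mono (hδd k hk) hN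
      refine hd2 k hk (m q) (hm1 q) hN' ?_ ?_
      · rw [hm2]; exact path_mem _ _ _ (hsq q).2
      · rw [hm3]; exact path_mem _ _ _ (hsq q).2
    obtain ⟨z', σ, hz', hσ, hlim⟩ := hL n w δ m hn hδ hm1 hnear
    have hsσ : Tendsto (fun q => sq (σ q)) atTop (𝓝 s) := hs.comp hσ.tendsto_atTop
    refine ⟨⟨z', hz', ?_, ?_⟩, ?_⟩
    · have e1 := (hlim 0 (Nat.zero_le n)).1
      have e2 : Tendsto (fun q => (m (σ q) 0).u) atTop (𝓝 ((z 0).u + s * (x - (z 0).u))) := by
        simp only [hm2]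
        exact (hX.tendsto s).comp hsσ
      exact tendsto_nhds_unique e1 e2
    · have e1 := (hlim n le_rfl).1
      have e2 : Tendsto (fun q => (m (σ q) n).u) atTop (𝓝 ((z n).u + s * (y - (z n).u))) := by
        simp only [hm3]
        exact (hY.tendsto s).comp hsσ
      exact tendsto_nhds_unique e1 e2
    · exact isClosed_Icc.mem_of_tendsto hs (Eventually.of_forall fun q => (hsq q).2)
  have h0 : (0 : ℝ) ∈ A := ⟨z, hz, by ring, by ring⟩
  have hsub : Icc (0 : ℝ) 1 ⊆ A := by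
    refine hclosed.Icc_subset_of_forall_exists_gt h0 ?_
    rintro s ⟨⟨m, hm1, hm2, hm3⟩, hs⟩ t ht
    obtain ⟨e, he, he2⟩ := hO n w m 1 hn hm1 one_pos
    have c1 : ∀ᶠ s' in 𝓝[>] s, |((z 0).u + s' * (x - (z 0).u)) - (m 0).u| < e := by
      rw [hm2]
      have := (hX.tendsto s).mono_left (nhdsWithin_le_nhds (s := Ioi s))
      have h3 := this.eventually (Metric.ball_mem_nhds _ he)
      filter_upwards [h3] with s' hs'
      rw [Real.dist_eq] at hs'
      exact hs'
    have c2 : ∀ᶠ s' in 𝓝[>] s, |((z n).u + s' * (y - (z n).u)) - (m n).u| < e := by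
      rw [hm3]
      have := (hY.tendsto s).mono_left (nhdsWithin_le_nhds (s := Ioi s))
      have h3 := this.eventually (Metric.ball_mem_nhds _ he)
      filter_upwards [h3] with s' hs'
      rw [Real.dist_eq] at hs'
      exact hs'
    have c3 : ∀ᶠ s' in 𝓝[>] s, s' ∈ Ioc s t := Ioc_mem_nhdsGT ht
    obtain ⟨s', h3, h4, h5⟩ := (c1.and (c2.and c3)).exists
    obtain ⟨m', hm', hm0, hmn, _⟩ := he2 _ _ h3 h4
    exact ⟨s', ⟨m', hm', hm0, hmn⟩, h5⟩
  obtain ⟨m, hm, hm0, hmn⟩ := hsub (right_mem_Icc.2 zero_le_one)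
  exact h1 m hm (by rw [hm0]; ring) (by rw [hmn]; ring)

end Pool.Agent.Helper42.DB.PkFULLPATH
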