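import Pool.Agent.Helper42.DB.Goals3

set_option autoImplicit false

/-!
# MP_48f005_an, packet ORDG
-/

namespace Pool.Agent.Helper42.DB.PkORDG

open Set Filter Topology

lemma ee_add_int (θ : ℝ) (m : ℤ) : ee (θ + m * (2 * Real.pi)) = ee θ := by
  rw [ee_eq_ee_iff]
  have h : θ + m * (2 * Real.pi) - θ = m * (2 * Real.pi) := by ring
  rw [h, Real.cos_int_mul_two_pi]

/-- choice of the sheet -/
lemma sheet (a b θ : ℝ) (hab : a ≤ b) (h : ∀ u ∈ Icc a b, ee u ≠ -ee θ) :
    ∃ m : ℤ, ∀ u ∈ Icc a b, |u - (θ + m * (2 * Real.pi))| < Real.pi := by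
  have hpi := Real.pi_pos
  set m : ℤ := round ((a - θ) / (2 * Real.pi)) with hm
  have h0 : |a - (θ + m * (2 * Real.pi))| ≤ Real.pi := by
    have h1 := abs_sub_round ((a - θ) / (2 * Real.pi))
    have h2 : a - (θ + m * (2 * Real.pi)) = ((a - θ) / (2 * Real.pi) - m) * (2 * Real.pi) := by
      field_simp
      ring
    rw [h2, abs_mul, abs_of_pos (by positivity : (0:ℝ) < 2 * Real.pi)]
    calc |(a - θ) / (2 * Real.pi) - m| * (2 * Real.pi) ≤ 1 / 2 * (2 * Real.pi) := by
          apply mul_le_mul_of_nonneg_right h1; positivity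
      _ = Real.pi := by ring
  have hne1 : ∀ u ∈ Icc a b, u - (θ + m * (2 * Real.pi)) ≠ Real.pi := by
    intro u hu he
    apply h u hu
    have h3 : u = (θ + Real.pi) + m * (2 * Real.pi) := by linarith
    rw [h3, ee_add_int, ee_add_pi]
  have hne2 : ∀ u ∈ Icc a b, u - (θ + m * (2 * Real.pi)) ≠ -Real.pi := by
    intro u hu he
    apply h u hu
    have h3 : u = (θ + Real.pi) + ((m - 1 : ℤ) : ℝ) * (2 * Real.pi) := by
      push_cast; linarith
    rw [h3, ee_add_int, ee_add_pi]
  have ha : a ∈ Icc a b := ⟨le_rfl, hab⟩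
  have ha' := abs_le.1 h0
  have ha1 : -Real.pi < a - (θ + m * (2 * Real.pi)) :=
    lt_of_le_of_ne ha'.1 (Ne.symm (hne2 a ha))
  have ha2 : a - (θ + m * (2 * Real.pi)) < Real.pi := lt_of_le_of_ne ha'.2 (hne1 a ha)
  refine ⟨m, fun u hu => abs_lt.2 ⟨by linarith [hu.1], ?_⟩⟩
  by_contra hge
  push Not at hge
  have hu' : θ + m * (2 * Real.pi) + Real.pi ∈ Icc a b := ⟨by linarith, by linarith [hu.2]⟩
  exact hne1 _ hu' (by ring)

lemma small_of_cos_pos (A : ℝ) (hA : |A| < Real.pi + Real.pi / 2) (hc : 0 < Real.cos A) :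
    |A| < Real.pi / 2 := by
  by_contra hge
  push Not at hge
  have h := Real.cos_nonpos_of_pi_div_two_le_of_le hge hA.le
  rw [Real.cos_abs] at h
  linarith

/-- LIFT for flights with tangential ends -/
lemma liftG (S : Sys) (i j : S.ι) (hij : i ≠ j) : ∃ η c kk : ℝ, Real.cos kk = -1 ∧
    (∀ u ∈ Ioo (S.a i) (S.b i), dt (ee η) (S.g i u) < c) ∧
    (∀ v ∈ Ioo (S.a j) (S.b j), c < dt (ee η) (S.g j v)) ∧
    ∀ x y : St S, FlG x y → x.i = i → y.i = j →
      |x.th - η| < Real.pi / 2 ∧ y.bk = x.th + kk := by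
  obtain ⟨η', c, h1, h2, h3, h4⟩ := S.sep i j hij
  obtain ⟨m, hm⟩ := sheet (S.a i) (S.b i) η' (S.hab i).le h3
  set η : ℝ := η' + m * (2 * Real.pi) with hη
  have heη : ee η = ee η' := ee_add_int η' m
  obtain ⟨m', hm'⟩ := sheet (S.a j) (S.b j) (η + Real.pi) (S.hab j).le (by
    intro v hv
    rw [ee_add_pi, neg_neg, heη]
    exact h4 v hv)
  set kk : ℝ := Real.pi + m' * (2 * Real.pi) with hkk
  have hcos : Real.cos kk = -1 := by
    rw [hkk, Real.cos_add_int_mul_two_pi, Real.cos_pi]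
  have hsin : Real.sin kk = 0 := by
    rw [hkk, Real.sin_add_int_mul_two_pi, Real.sin_pi]
  have hB : ∀ v ∈ Icc (S.a j) (S.b j), |v - η - kk| < Real.pi := by
    intro v hv
    have h := hm' v hv
    have he : v - (η + Real.pi + m' * (2 * Real.pi)) = v - η - kk := by rw [hkk]; ring
    rwa [he] at h
  refine ⟨η, c, kk, hcos, ?_, ?_, ?_⟩
  · intro u hu; rw [heη]; exact h1 u hu
  · intro v hv; rw [heη]; exact h2 v hv
  intro x y hF hxi hyj
  obtain ⟨hx, hy, he, t, ht, hp, -⟩ := hF
  have hxu : x.u ∈ Ioo (S.a i) (S.b i) := by rw [← hxi]; exact hx.1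
  have hyu : y.u ∈ Ioo (S.a j) (S.b j) := by rw [← hyj]; exact hy.1
  have hxp : dt (ee η) x.pos < c := by
    have h := h1 x.u hxu
    rw [heη]
    have h' : x.pos = S.g i x.u := by simp only [St.pos, hxi]
    rw [h']; exact h
  have hyp : c < dt (ee η) y.pos := by
    have h := h2 y.u hyu
    rw [heη]
    have h' : y.pos = S.g j y.u := by simp only [St.pos, hyj]
    rw [h']; exact h
  rw [hp, dt_add_right, dt_smul_right, dt_ee_ee] at hyp
  have hpos : 0 < t * Real.cos (x.th - η) := by linarith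
  have hc : 0 < Real.cos (x.th - η) := (mul_pos_iff_of_pos_left ht).1 hpos
  have hA : |x.th - η| < Real.pi / 2 := by
    apply small_of_cos_pos _ _ hc
    have e1 : x.th - η = (x.u - η) + x.φ := by simp only [St.th]; ring
    rw [e1]
    have e2 := abs_add_le (x.u - η) x.φ
    have e3 := hm x.u (Ioo_subset_Icc_self hxu)
    have e4 := hx.2
    linarith
  have hcB : Real.cos (y.bk - η) = -Real.cos (x.th - η) := by
    rw [← dt_ee_ee, ← dt_ee_ee, he, dt_neg_right, neg_neg]
  have hcB' : Real.cos (y.bk - η - kk) = Real.cos (x.th - η) := by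
    rw [Real.cos_sub (y.bk - η) kk, hcos, hsin, hcB]; ring
  have hBB : |y.bk - η - kk| < Real.pi / 2 := by
    apply small_of_cos_pos _ _ (by rw [hcB']; exact hc)
    have e1 : y.bk - η - kk = (y.u - η - kk) + -y.φ := by simp only [St.bk]; ring
    rw [e1]
    have e2 := abs_add_le (y.u - η - kk) (-y.φ)
    rw [abs_neg] at e2
    have e3 := hB y.u (Ioo_subset_Icc_self hyu)
    have e4 := hy.2
    linarith
  refine ⟨hA, ?_⟩
  have hone : Real.cos (y.bk - η - kk - (x.th - η)) = 1 := by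
    have e1 : y.bk - η - kk - (x.th - η) = (y.bk - x.th) - kk := by ring
    have e2 : Real.cos (y.bk - x.th) = -1 := by
      rw [← dt_ee_ee, he, dt_neg_left, dt_self, norm_ee]; norm_num
    rw [e1, Real.cos_sub, hcos, hsin, e2]; ring
  have hlt := abs_lt.1 hA
  have hlt' := abs_lt.1 hBB
  have hz := (Real.cos_eq_one_iff_of_lt_of_lt (by linarith [Real.pi_pos, hlt.2, hlt'.1])
    (by linarith [Real.pi_pos, hlt.1, hlt'.2])).1 hone
  linarith

/-- a curve is behind its tangent -/
lemma behind (hC : G_CRV) (S : Sys) (i : S.ι) (u v : ℝ) (huv : u ≠ v) (h : |v - u| ≤ 1 / 4) :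
    dt (ee u) (S.g i v - S.g i u) < 0 := by
  have hpi : (3 : ℝ) < Real.pi := Real.pi_gt_three
  have h1 := (hC (S.crv i) u u v).2
  rw [h1, neg_lt_zero]
  have hcont : Continuous (fun t => (S.crv i).R t * Real.sin (t - u)) :=
    (S.crv i).cont.mul (Real.continuous_sin.comp (continuous_id.sub continuous_const))
  have hR : ∀ t, 0 < (S.crv i).R t := fun t => S.r0_pos.trans_le (S.le_R i t)
  rcases lt_or_gt_of_ne huv with hlt | hgt
  · apply intervalIntegral.intervalIntegral_pos_of_pos_on (hcont.intervalIntegrable _ _) _ hlt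
    intro t ht
    have h2 := (abs_le.1 h).2
    exact mul_pos (hR t) (Real.sin_pos_of_pos_of_lt_pi (by linarith [ht.1]) (by linarith [ht.2]))
  · rw [intervalIntegral.integral_symm, ← intervalIntegral.integral_neg]
    apply intervalIntegral.intervalIntegral_pos_of_pos_on (hcont.neg.intervalIntegrable _ _) _ hgt
    intro t ht
    have h2 := (abs_le.1 h).1
    have h3 : Real.sin (t - u) < 0 :=
      Real.sin_neg_of_neg_of_neg_pi_lt (by linarith [ht.2]) (by linarith [ht.1])
    have h4 := mul_neg_of_pos_of_neg (hR t) h3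
    exact neg_pos.2 h4

lemma ne_arc (hC : G_CRV) (S : Sys) (x y : St S) (h : FlG x y) : x.i ≠ y.i := by
  intro hi
  obtain ⟨hx, hy, he, t, ht, hp, -⟩ := h
  obtain ⟨i, u, φ⟩ := x
  obtain ⟨j, v, ψ⟩ := y
  simp only at hi
  subst hi
  have hx1 := hx.1
  have hy1 := hy.1
  have hx2 := hx.2
  simp only [St.pos, St.th] at hp hx1 hy1 hx2
  have hd : S.g i v - S.g i u = t • ee (u + φ) := by rw [hp]; abel
  have hcos : 0 ≤ Real.cos φ :=
    Real.cos_nonneg_of_mem_Icc ⟨by linarith [(abs_le.1 hx2).1], (abs_le.1 hx2).2⟩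
  have h1 : 0 ≤ dt (ee u) (S.g i v - S.g i u) := by
    rw [hd, dt_smul_right, dt_ee_ee]
    have : u + φ - u = φ := by ring
    rw [this]
    positivity
  by_cases huv : u = v
  · subst huv
    rw [sub_self] at hd
    have h2 := smul_eq_zero.1 hd.symm
    rcases h2 with h2 | h2
    · exact ht.ne' h2
    · exact ee_ne_zero _ h2
  · have h2 := behind hC S i u v huv (by
      have := S.turn i
      rw [abs_le]
      constructor <;> linarith [hx1.1, hx1.2, hy1.1, hy1.2])
    linarith

theorem thm (S : Sys) : G_CRV → G_HMONO → G_ORDG S := by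
  intro hC hH x y x' y' hF hF' hxi hyi hu hth
  have hne := ne_arc hC S x y hF
  obtain ⟨η, c, kk, hcos, hL, hR, hfl⟩ := liftG S x.i y.i hne
  obtain ⟨hA, hB⟩ := hfl x y hF rfl rfl
  obtain ⟨hA', hB'⟩ := hfl x' y' hF' hxi.symm hyi.symm
  have hsin : Real.sin kk = 0 := by
    have := Real.sin_sq_add_cos_sq kk
    rw [hcos] at this
    nlinarith [sq_nonneg (Real.sin kk), this]
  have heta : ee (η + kk) = -ee η := by
    apply Complex.ext
    · simp [Real.cos_add, hcos, hsin]
    · simp [Real.sin_add, hcos, hsin]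
  obtain ⟨hx, hy, he, t, ht, hp, -⟩ := hF
  obtain ⟨hx', hy', he', t', ht', hp', -⟩ := hF'
  have hbk : y.bk < y'.bk := by rw [hB, hB']; linarith
  refine ⟨?_, by rw [hB, hB']; ring⟩
  by_contra hcon
  push Not at hcon
  have hxpos : x.pos = S.g x.i x.u := rfl
  have hxpos' : x'.pos = S.g x.i x'.u := by simp only [St.pos, hxi]
  have hypos : y.pos = S.g y.i y.u := rfl
  have hypos' : y'.pos = S.g y.i y'.u := by simp only [St.pos, hyi]
  have hx'1 : x'.u ∈ Ioo (S.a x.i) (S.b x.i) := by rw [hxi]; exact hx'.1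
  have hy'1 : y'.u ∈ Ioo (S.a y.i) (S.b y.i) := by rw [hyi]; exact hy'.1
  have hx1 := hx.1
  have hy1 := hy.1
  have k1 := (hH (S.crv x.i) η c x.u x'.u x.th x'.th hu hth.le
    (by have : x.th - x.u = x.φ := by simp only [St.th]; ring
        rw [this]; exact hx.2)
    (by have : x'.th - x'.u = x'.φ := by simp only [St.th]; ring
        rw [this]; exact hx'.2)
    hA hA' (fun ν hν => hL ν ⟨by linarith [hν.1, hx1.1], by linarith [hν.2, hx'1.2]⟩)).2
    (Or.inl hth)
  have k2 := (hH (S.crv y.i) (η + kk) (-c) y.u y'.u y.bk y'.bk hcon hbk.le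
    (by have : y.bk - y.u = -y.φ := by simp only [St.bk]; ring
        rw [this, abs_neg]; exact hy.2)
    (by have : y'.bk - y'.u = -y'.φ := by simp only [St.bk]; ring
        rw [this, abs_neg]; exact hy'.2)
    (by rw [hB]
        have : x.th + kk - (η + kk) = x.th - η := by ring
        rw [this]; exact hA)
    (by rw [hB']
        have : x'.th + kk - (η + kk) = x'.th - η := by ring
        rw [this]; exact hA')
    (fun ν hν => by
      rw [heta, dt_neg_left]
      have := hR ν ⟨by linarith [hν.1, hy1.1], by linarith [hν.2, hy'1.2]⟩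
      change -dt (ee η) (S.g y.i ν) < -c
      linarith)).1
  have e1 : ee y.bk = -ee x.th := by rw [he, neg_neg]
  have e1' : ee y'.bk = -ee x'.th := by rw [he', neg_neg]
  have e2 : y.bk - (η + kk) = x.th - η := by rw [hB]; ring
  have e2' : y'.bk - (η + kk) = x'.th - η := by rw [hB']; ring
  have e3 : cr (ee y.bk) ((S.crv y.i).G y.u - (-c) • ee (η + kk)) =
      -cr (ee x.th) ((S.crv x.i).G x.u - c • ee η) := by
    have e4 : (S.crv y.i).G y.u = x.pos + t • ee x.th := hp
    rw [e1, heta, e4, hxpos, cr_neg_left, smul_neg, neg_smul, neg_neg, cr_sub_right, cr_sub_right,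
      cr_add_right, cr_smul_right t, cr_self]
    ring
  have e3' : cr (ee y'.bk) ((S.crv y.i).G y'.u - (-c) • ee (η + kk)) =
      -cr (ee x'.th) ((S.crv x.i).G x'.u - c • ee η) := by
    have e4 : (S.crv y.i).G y'.u = x'.pos + t' • ee x'.th := by
      rw [← hp', hypos']
    rw [e1', heta, e4, hxpos', cr_neg_left, smul_neg, neg_smul, neg_neg, cr_sub_right,
      cr_sub_right, cr_add_right, cr_smul_right t', cr_self]
    ring
  rw [e2, e2', e3, e3', neg_div, neg_div] at k2
  linarith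

end Pool.Agent.Helper42.DB.PkORDG
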